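import Pool.Agent.Helper77.OF4.St

/-!
# Project OF4, module KZ: if no corner can be folded then faces have length two or five
-/

set_option autoImplicit false

namespace Pool.Agent.Helper76.OF4.KZ

open Equiv Equiv.Perm Pool.Agent.Helper35.PM Pool.Agent.Helper77.HY Pool.Agent.Helper77.OF4

theorem per {D : Type} [Finite D] (φ : Perm D) (d : D) : d ∈ Function.periodicPts φ := by
  refine ⟨orderOf φ, orderOf_pos φ, ?_⟩
  show φ^[orderOf φ] d = d
  rw [Perm.iterate_eq_pow, pow_orderOf_eq_one]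
  rfl

theorem mp_pow {D : Type} [Finite D] (φ : Perm D) (d : D) (i : ℕ) :
    Function.minimalPeriod φ ((φ ^ i) d) = Function.minimalPeriod φ d := by
  rw [← Perm.iterate_eq_pow, Function.minimalPeriod_apply_iterate (per φ d)]

variable {V D : Type}

theorem Wk.cat {M : PMap V D} {m n : ℕ} {a b c : V} (h1 : Wk M m a b) (h2 : Wk M n b c) :
    Wk M (m + n) a c := by
  obtain ⟨w, hw0, hwm, hw⟩ := h1
  obtain ⟨w', hw0', hwn', hw'⟩ := h2
  refine ⟨fun i => if i < m then w i else w' (i - m), ?_, ?_, ?_⟩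
  · by_cases hm : 0 < m
    · simp only [if_pos hm]
      exact hw0
    · have hm0 : m = 0 := by omega
      subst hm0
      simp only [Nat.lt_irrefl, if_false, Nat.sub_zero]
      rw [hw0', ← hwm, hw0]
  · simp only [if_neg (show ¬ m + n < m by omega)]
    rw [Nat.add_sub_cancel_left, hwn']
  · intro i hi
    by_cases h1 : i + 1 < m
    · simp only [if_pos h1, if_pos (show i < m by omega)]
      exact hw i (by omega)
    · by_cases h2 : i + 1 = m
      · simp only [if_neg (show ¬ i + 1 < m by omega), if_pos (show i < m by omega)]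
        have h3 := hw i (by omega)
        rw [h2, hwm] at h3
        rw [h2, Nat.sub_self, hw0']
        exact h3
      · simp only [if_neg (show ¬ i + 1 < m by omega), if_neg (show ¬ i < m by omega)]
        have h3 := hw' (i - m) (by omega)
        rw [show i - m + 1 = i + 1 - m by omega] at h3
        exact h3

theorem Wk.rev {M : PMap V D} {n : ℕ} {a b : V} (h : Wk M n a b) : Wk M n b a := by
  obtain ⟨w, hw0, hwn, hw⟩ := h
  refine ⟨fun i => w (n - i), ?_, ?_, ?_⟩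
  · simp only [Nat.sub_zero]
    exact hwn
  · simp only [Nat.sub_self]
    exact hw0
  · intro i hi
    obtain ⟨e, he1, he2⟩ := hw (n - (i + 1)) (by omega)
    rw [show n - (i + 1) + 1 = n - i by omega] at he2
    exact ⟨M.ι e, he2, by rw [M.inv, he1]⟩

theorem wk_sub {M : PMap V D} {n : ℕ} {w : ℕ → V}
    (hw : ∀ i < n, ∃ d, M.t d = w i ∧ M.t (M.ι d) = w (i + 1)) {i j : ℕ} (hij : i ≤ j)
    (hj : j ≤ n) : Wk M (j - i) (w i) (w j) := by
  refine ⟨fun k => w (i + k), rfl, ?_, ?_⟩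
  · show w (i + (j - i)) = w j
    rw [Nat.add_sub_cancel' hij]
  · intro k hk
    exact hw (i + k) (by omega)

theorem closed {M : PMap V D} (hO : OG M) {n : ℕ} {a : V} (h : Wk M n a a) : n ≠ 1 ∧ n ≠ 3 := by
  obtain ⟨w, hw0, hwn, hw⟩ := h
  constructor
  · rintro rfl
    obtain ⟨d, h1, h2⟩ := hw 0 (by norm_num)
    exact hO.1 d (by rw [h2, h1, hw0]; exact hwn)
  · rintro rfl
    obtain ⟨d, h1, h2⟩ := hw 0 (by norm_num)
    obtain ⟨e, h3, h4⟩ := hw 1 (by norm_num)
    obtain ⟨f, h5, h6⟩ := hw 2 (by norm_num)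
    exact hO.2 d e f (by rw [h2, h3]) (by rw [h4, h5]) (by rw [h6, h1, hw0]; exact hwn)

theorem edge (M : PMap V D) (d : D) (i : ℕ) :
    Wk M 1 (M.t ((M.φ ^ i) d)) (M.t ((M.φ ^ (i + 1)) d)) := by
  refine ⟨fun k => M.t ((M.φ ^ (i + k)) d), rfl, rfl, ?_⟩
  intro k hk
  refine ⟨(M.φ ^ (i + k)) d, rfl, ?_⟩
  show M.t (M.ι ((M.φ ^ (i + k)) d)) = M.t ((M.φ ^ (i + (k + 1))) d)
  rw [← add_assoc, pow_succ', Perm.mul_apply, t_φ]

theorem v_ne [Finite D] {M : PMap V D} (hF : FInj M) {d : D} {i j : ℕ} (hij : i < j)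
    (hj : j < Function.minimalPeriod M.φ d) : M.t ((M.φ ^ i) d) ≠ M.t ((M.φ ^ j) d) := by
  intro h
  have h1 : (M.φ ^ i) d = (M.φ ^ j) d := by
    refine hF _ _ ?_ h
    exact ((SameCycle.refl M.φ d).pow_right).pow_left
  have h2 := Function.iterate_injOn_Iio_minimalPeriod (f := M.φ) (x := d)
    (show i ∈ Set.Iio _ from hij.trans hj) (show j ∈ Set.Iio _ from hj)
    (by
      show M.φ^[i] d = M.φ^[j] d
      rw [Perm.iterate_eq_pow, Perm.iterate_eq_pow, h1])
  omega

theorem uf' [Finite D] {M : PMap V D} (hU : UF M) (hF : FInj M) {d : D} (i : ℕ)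
    (hn : i + 2 < Function.minimalPeriod M.φ d) :
    Wk M 3 (M.t ((M.φ ^ i) d)) (M.t ((M.φ ^ (i + 2)) d)) := by
  have h1 : (M.φ ^ (i + 2)) d = M.φ (M.φ ((M.φ ^ i) d)) := by
    rw [show i + 2 = i + 1 + 1 from rfl, pow_succ', Perm.mul_apply, pow_succ', Perm.mul_apply]
  rw [h1]
  refine hU _ ?_
  rw [← h1]
  exact v_ne hF (by omega) hn

theorem step1 [Finite D] (hCr : StCr) {M : PMap V D} (hO : OG M) (hU : UF M) (hF : FInj M) {d : D}
    (hn : 4 ≤ Function.minimalPeriod M.φ d) :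
    Function.minimalPeriod M.φ d ≠ 4 ∧ Wk M 2 (M.t d) (M.t ((M.φ ^ 3) d)) := by
  obtain ⟨w, hw0, hwm, hw⟩ := uf' hU hF 0 (show 0 + 2 < Function.minimalPeriod M.φ d by omega)
  obtain ⟨w', hw0', hwm', hw'⟩ := uf' hU hF 1 (show 1 + 2 < Function.minimalPeriod M.φ d by omega)
  obtain ⟨a, ha, b, hb, hab⟩ := hCr V D M d 1 2 3 hF (by norm_num) (by norm_num) (by norm_num)
    (by omega) 3 3 w w' hw0 hwm hw hw0' hwm' hw'
  have Wa := wk_sub hw (Nat.zero_le a) ha
  have Wa' := wk_sub hw ha le_rfl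
  have Wb := wk_sub hw' (Nat.zero_le b) hb
  have Wb' := wk_sub hw' hb le_rfl
  rw [Nat.sub_zero, hw0] at Wa
  rw [hwm] at Wa'
  rw [Nat.sub_zero, hw0', ← hab] at Wb
  rw [hwm', ← hab] at Wb'
  have e01 := edge M d 0
  have e12 := edge M d 1
  have e23 := edge M d 2
  norm_num only [] at e01 e12 e23 Wa Wa' Wb Wb'
  have cA := closed hO (Wk.cat (Wk.cat Wb (Wk.rev Wa)) e01)
  have cB := closed hO (Wk.cat (Wk.cat Wa' (Wk.rev e12)) Wb)
  have cC := closed hO (Wk.cat (Wk.cat Wa' e23) (Wk.rev Wb'))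
  have cD := closed hO (Wk.cat (Wk.cat (Wk.cat Wa Wb') (Wk.rev e23))
    (Wk.cat (Wk.rev e12) (Wk.rev e01)))
  have h2 : a + (3 - b) = 2 := by omega
  have h3 := Wk.cat Wa Wb'
  rw [h2] at h3
  refine ⟨?_, h3⟩
  intro h4
  have e34 := edge M d 3
  have h5 : (M.φ ^ (3 + 1)) d = (M.φ ^ 0) d := by
    have := Function.iterate_minimalPeriod (f := M.φ) (x := d)
    rw [h4, Perm.iterate_eq_pow] at this
    exact this
  rw [h5] at e34
  have := closed hO (Wk.cat h3 e34)
  omega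

theorem step2 [Finite D] (hCr : StCr) {M : PMap V D} (hO : OG M) (hU : UF M) (hF : FInj M) {d : D}
    (hn : 5 ≤ Function.minimalPeriod M.φ d) : Wk M 1 (M.t d) (M.t ((M.φ ^ 4) d)) := by
  obtain ⟨w, hw0, hwm, hw⟩ := (step1 hCr hO hU hF (show 4 ≤ Function.minimalPeriod M.φ d by omega)).2
  have hq := (step1 hCr hO hU hF (d := (M.φ ^ 1) d)
    (show 4 ≤ Function.minimalPeriod M.φ ((M.φ ^ 1) d) by rw [mp_pow]; omega)).2
  rw [← Perm.mul_apply, ← pow_add] at hq
  obtain ⟨w', hw0', hwm', hw'⟩ := hq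
  obtain ⟨a, ha, b, hb, hab⟩ := hCr V D M d 1 3 4 hF (by norm_num) (by norm_num) (by norm_num)
    (by omega) 2 2 w w' hw0 hwm hw hw0' hwm' hw'
  have Wa := wk_sub hw (Nat.zero_le a) ha
  have Wa' := wk_sub hw ha le_rfl
  have Wb := wk_sub hw' (Nat.zero_le b) hb
  have Wb' := wk_sub hw' hb le_rfl
  rw [Nat.sub_zero, hw0] at Wa
  rw [hwm] at Wa'
  rw [Nat.sub_zero, hw0', ← hab] at Wb
  rw [hwm', ← hab] at Wb'
  have e01 := edge M d 0
  have e12 := edge M d 1
  have e23 := edge M d 2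
  have e34 := edge M d 3
  norm_num only [] at e01 e12 e23 e34 Wa Wa' Wb Wb'
  have cA := closed hO (Wk.cat (Wk.cat Wb (Wk.rev Wa)) e01)
  have cB := closed hO (Wk.cat (Wk.cat Wa' (Wk.cat (Wk.rev e23) (Wk.rev e12))) Wb)
  have cC := closed hO (Wk.cat (Wk.cat Wa' e34) (Wk.rev Wb'))
  have h2 : a + (2 - b) = 1 := by omega
  have h3 := Wk.cat Wa Wb'
  rw [h2] at h3
  exact h3

theorem main (hCr : StCr) : StKz := by
  intro V D _ M hO hU hF d
  have hpos : 0 < Function.minimalPeriod M.φ d :=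
    Function.minimalPeriod_pos_of_mem_periodicPts (per M.φ d)
  have hper : ∀ k, Function.minimalPeriod M.φ d = k → (M.φ ^ k) d = d := by
    intro k hk
    have := Function.iterate_minimalPeriod (f := M.φ) (x := d)
    rw [hk, Perm.iterate_eq_pow] at this
    exact this
  by_contra hcon
  rw [not_or] at hcon
  obtain ⟨hc2, hc5⟩ := hcon
  by_cases h1 : Function.minimalPeriod M.φ d = 1
  · have e := edge M d 0
    rw [zero_add, hper 1 h1] at e
    exact (closed hO e).1 rfl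
  by_cases h3 : Function.minimalPeriod M.φ d = 3
  · have e := Wk.cat (Wk.cat (edge M d 0) (edge M d 1)) (edge M d 2)
    rw [show 2 + 1 = 3 from rfl, hper 3 h3] at e
    exact (closed hO e).2 rfl
  by_cases h4 : Function.minimalPeriod M.φ d = 4
  · exact (step1 hCr hO hU hF (by omega)).1 h4
  have hn : 6 ≤ Function.minimalPeriod M.φ d := by omega
  obtain ⟨w, hw0, hwm, hw⟩ := step2 hCr hO hU hF (show 5 ≤ Function.minimalPeriod M.φ d by omega)
  have hq := step2 hCr hO hU hF (d := (M.φ ^ 1) d)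
    (show 5 ≤ Function.minimalPeriod M.φ ((M.φ ^ 1) d) by rw [mp_pow]; omega)
  rw [← Perm.mul_apply, ← pow_add] at hq
  obtain ⟨w', hw0', hwm', hw'⟩ := hq
  obtain ⟨a, ha, b, hb, hab⟩ := hCr V D M d 1 4 5 hF (by norm_num) (by norm_num) (by norm_num)
    (by omega) 1 1 w w' hw0 hwm hw hw0' hwm' hw'
  have n01 := v_ne hF (d := d) (show 0 < 1 by norm_num) (by omega)
  have n05 := v_ne hF (d := d) (show 0 < 5 by norm_num) (by omega)
  have n14 := v_ne hF (d := d) (show 1 < 4 by norm_num) (by omega)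
  have n45 := v_ne hF (d := d) (show 4 < 5 by norm_num) (by omega)
  interval_cases a <;> interval_cases b
  · exact n01 (by rw [← hw0', ← hab, hw0]; rfl)
  · exact n05 (by
      have := hab
      rw [hw0, hwm'] at this
      exact this)
  · exact n14 (by rw [← hw0', ← hab, hwm])
  · exact n45 (by
      have := hab
      rw [hwm, hwm'] at this
      exact this)

end Pool.Agent.Helper76.OF4.KZ
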